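import Mathlib

set_option autoImplicit false
set_option linter.unusedSectionVars false
set_option linter.unusedVariables false

/-!
# One `p`-th of the mixed hyperdeterminant modulo `p`
-/

namespace Pool.Agent.Helper429.LF2

open Finset

section

variable {p : ℕ} [hp : Fact p.Prime] {n : ℕ}

/-- tensors of degree `p`, the factors indexed by `ZMod p` -/
abbrev Ten (p n : ℕ) := (ZMod p → Fin n) → ZMod p

/-- rotation -/
def rot {α : Type} (d : ZMod p) (j : ZMod p → α) : ZMod p → α := fun c => j (c + d)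

/-- rotation invariant with zero diagonal -/
def SZ (A : Ten p n) : Prop := (∀ d j, A (rot d j) = A j) ∧ ∀ a, A (fun _ => a) = 0

/-- number of occurrences -/
def cnt (j : ZMod p → Fin n) (a : Fin n) : ZMod p := ∑ c, if j c = a then 1 else 0

theorem cnt_rot (d : ZMod p) (j : ZMod p → Fin n) : cnt (rot d j) = cnt j := by
  funext a
  unfold cnt rot
  exact Equiv.sum_comp (Equiv.addRight d) (fun c => if j c = a then (1 : ZMod p) else 0)

theorem cnt_ne {j : ZMod p → Fin n} {c : ZMod p} (h : j c ≠ j 0) : cnt j (j 0) ≠ 0 := by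
  unfold cnt
  rw [Finset.sum_boole]
  intro h0
  rw [ZMod.natCast_eq_zero_iff] at h0
  have h1 : (Finset.univ.filter (fun x => j x = j 0)).card < p := by
    have h2 : (Finset.univ.filter (fun x => j x = j 0)) ⊂ Finset.univ := by
      rw [Finset.ssubset_univ_iff]
      intro h3
      have : c ∈ Finset.univ.filter (fun x => j x = j 0) := by rw [h3]; exact Finset.mem_univ _
      exact h (Finset.mem_filter.mp this).2
    have := Finset.card_lt_card h2
    rwa [Finset.card_univ, ZMod.card] at this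
  have h4 : 0 < (Finset.univ.filter (fun x => j x = j 0)).card :=
    Finset.card_pos.mpr ⟨0, by simp⟩
  exact absurd (Nat.le_of_dvd h4 h0) h1.not_ge

open Classical in
/-- a choice of a value whose number of occurrences is not zero -/
noncomputable def sel (κ : Fin n → ZMod p) : Option (Fin n) :=
  if h : ∃ a, κ a ≠ 0 then some h.choose else none

theorem sel_spec {κ : Fin n → ZMod p} (h : ∃ a, κ a ≠ 0) : ∃ a, sel κ = some a ∧ κ a ≠ 0 :=
  ⟨h.choose, by unfold sel; rw [dif_pos h], h.choose_spec⟩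

/-- a weight function whose sum over every nonconstant orbit is one -/
noncomputable def chi (j : ZMod p → Fin n) : ZMod p :=
  match sel (cnt j) with
  | none => 0
  | some a => if j 0 = a then (cnt j a)⁻¹ else 0

theorem chi_sum {j : ZMod p → Fin n} {c : ZMod p} (h : j c ≠ j 0) : ∑ d, chi (rot d j) = 1 := by
  obtain ⟨a, h1, h2⟩ := sel_spec (κ := cnt j) ⟨_, cnt_ne h⟩
  have h3 : ∀ d, chi (rot d j) = (if j d = a then 1 else 0) * (cnt j a)⁻¹ := by
    intro d
    unfold chi
    rw [cnt_rot, h1]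
    simp [rot]
  simp only [h3]
  rw [← Finset.sum_mul]
  exact mul_inv_cancel₀ h2

/-- the tuples of permutations -/
abbrev PT (p n : ℕ) := ZMod p → Equiv.Perm (Fin n)

def sg (ρ : PT p n) : ZMod p := ∏ c, ((Equiv.Perm.sign (ρ c) : ℤ) : ZMod p)

/-- evaluation of a tuple of permutations -/
def ev (ρ : PT p n) (i : Fin n) : ZMod p → Fin n := fun c => ρ c i

def PP (v : Fin n → Ten p n) (ρ : PT p n) : ZMod p := ∏ i, v i (ev ρ i)

/-- the function -/
noncomputable def hf (s : Fin n) (v : Fin n → Ten p n) : ZMod p :=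
  ∑ ρ : PT p n, chi (ev ρ s) * (sg ρ * PP v ρ)

theorem sg_rot (d : ZMod p) (ρ : PT p n) : sg (rot d ρ) = sg ρ :=
  Equiv.prod_comp (Equiv.addRight d) (fun c => ((Equiv.Perm.sign (ρ c) : ℤ) : ZMod p))

theorem ev_rot (d : ZMod p) (ρ : PT p n) (i : Fin n) : ev (rot d ρ) i = rot d (ev ρ i) := rfl

theorem PP_rot {v : Fin n → Ten p n} (hv : ∀ i, SZ (v i)) (d : ZMod p) (ρ : PT p n) :
    PP v (rot d ρ) = PP v ρ := by
  unfold PP
  exact Finset.prod_congr rfl fun i _ => by rw [ev_rot, (hv i).1]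

theorem PP_diag {v : Fin n → Ten p n} (hv : ∀ i, SZ (v i)) {ρ : PT p n} {i : Fin n}
    (h : ∀ c, ρ c i = ρ 0 i) : PP v ρ = 0 := by
  unfold PP
  apply Finset.prod_eq_zero (Finset.mem_univ i)
  have : ev ρ i = fun _ => ρ 0 i := by funext c; exact h c
  rw [this]; exact (hv i).2 _

theorem rot_rot {α : Type} (d e : ZMod p) (j : ZMod p → α) : rot d (rot e j) = rot (d + e) j := by
  funext c; unfold rot; rw [add_assoc]

theorem rot_zero {α : Type} (j : ZMod p → α) : rot (0 : ZMod p) j = j := by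
  funext c; unfold rot; rw [add_zero]

def rotE (d : ZMod p) : PT p n ≃ PT p n where
  toFun := rot d
  invFun := rot (-d)
  left_inv := fun ρ => by rw [rot_rot, neg_add_cancel, rot_zero]
  right_inv := fun ρ => by rw [rot_rot, add_neg_cancel, rot_zero]

theorem chi_insert {v : Fin n → Ten p n} (hv : ∀ i, SZ (v i)) (s : Fin n) (ρ : PT p n) :
    sg ρ * PP v ρ = ∑ d, chi (ev (rot d ρ) s) * (sg ρ * PP v ρ) := by
  by_cases h : ∀ c, ρ c s = ρ 0 s
  · rw [PP_diag hv h]; simp
  · push Not at h
    obtain ⟨c, hc⟩ := h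
    rw [← Finset.sum_mul]
    simp only [ev_rot]
    rw [chi_sum (c := c) hc, one_mul]

theorem hf_indep {v : Fin n → Ten p n} (hv : ∀ i, SZ (v i)) (s s' : Fin n) :
    hf s v = hf s' v := by
  have e1 : hf s v = ∑ d : ZMod p, ∑ ρ : PT p n,
      chi (ev ρ s) * (chi (ev (rot d ρ) s') * (sg ρ * PP v ρ)) := by
    unfold hf
    rw [Finset.sum_comm]
    apply Finset.sum_congr rfl
    intro ρ _
    rw [← Finset.mul_sum, ← chi_insert hv s' ρ]
  have e2 : hf s' v = ∑ d : ZMod p, ∑ ρ : PT p n,
      chi (ev ρ s') * (chi (ev (rot d ρ) s) * (sg ρ * PP v ρ)) := by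
    unfold hf
    rw [Finset.sum_comm]
    apply Finset.sum_congr rfl
    intro ρ _
    rw [← Finset.mul_sum, ← chi_insert hv s ρ]
  rw [e1, e2, ← Equiv.sum_comp (Equiv.neg (ZMod p))]
  apply Finset.sum_congr rfl
  intro d _
  rw [← Equiv.sum_comp (rotE d)]
  apply Finset.sum_congr rfl
  intro ρ _
  change chi (ev (rot d ρ) s) * (chi (ev (rot (-d) (rot d ρ)) s') * (sg (rot d ρ) *
    PP v (rot d ρ))) = _
  rw [rot_rot, neg_add_cancel, rot_zero, sg_rot, PP_rot hv]
  ring

/-- multilinear expansion -/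
theorem hf_expand {O : Type} [Fintype O] [DecidableEq O] (s : Fin n) (g : Fin n → O → Ten p n) :
    hf s (fun i j => ∑ o, g i o j) = ∑ r : Fin n → O, hf s (fun i => g i (r i)) := by
  unfold hf PP
  rw [Finset.sum_comm]
  apply Finset.sum_congr rfl
  intro ρ _
  rw [← Finset.mul_sum, ← Finset.mul_sum]
  congr 2
  rw [Finset.prod_univ_sum]
  simp only [Fintype.piFinset_univ]

theorem hf_slot_zero (s : Fin n) {v : Fin n → Ten p n} {i : Fin n} (h : ∀ j, v i j = 0) :
    hf s v = 0 := by
  unfold hf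
  apply Finset.sum_eq_zero
  intro ρ _
  have : PP v ρ = 0 := by
    unfold PP
    exact Finset.prod_eq_zero (Finset.mem_univ i) (h _)
  rw [this, mul_zero, mul_zero]

/-- `y x ⋯ x + x y ⋯ x + ⋯` -/
def wd (x y : Fin n → ZMod p) : Ten p n := fun j =>
  ∑ e, ∏ c, if c = e then y (j c) else x (j c)

theorem wd_SZ (x y : Fin n → ZMod p) : SZ (wd x y) := by
  constructor
  · intro d j
    unfold wd
    rw [← Equiv.sum_comp (Equiv.subRight d)]
    apply Finset.sum_congr rfl
    intro e _
    rw [← Equiv.prod_comp (Equiv.addRight d) (fun c => if c = e then y (j c) else x (j c))]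
    apply Finset.prod_congr rfl
    intro c _
    simp only [Equiv.subRight_apply, Equiv.coe_addRight, rot, eq_sub_iff_add_eq]
  · intro a
    unfold wd
    have : ∀ e : ZMod p, (∏ c : ZMod p, if c = e then y a else x a) =
        y a * x a ^ (p - 1) := by
      intro e
      rw [← Finset.mul_prod_erase Finset.univ _ (Finset.mem_univ e)]
      rw [if_pos rfl]
      congr 1
      rw [Finset.prod_congr rfl (g := fun _ => x a)
        (fun c hc => if_neg (Finset.ne_of_mem_erase hc))]
      rw [Finset.prod_const, Finset.card_erase_of_mem (Finset.mem_univ _), Finset.card_univ,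
        ZMod.card]
    simp only [this]
    rw [Finset.sum_const, Finset.card_univ, ZMod.card, nsmul_eq_mul, CharP.cast_eq_zero, zero_mul]

end

section cyc

variable {p : ℕ} [hp : Fact p.Prime] {n q : ℕ}

/-- the rest of the product -/
def rst (v : Fin n → Ten p n) (l : Fin (q+1) → Fin n) (ρ : PT p n) : ZMod p :=
  ∏ i ∈ (Finset.univ \ Finset.image l Finset.univ), v i (ev ρ i)

def PE (y : Fin (q+1) → Fin n → ZMod p) (l : Fin (q+1) → Fin n)
    (ε : Fin (q+1) → ZMod p) (ρ : PT p n) : ZMod p :=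
  ∏ c, ∏ k, if c = ε k then y (k+1) (ρ c (l k)) else y k (ρ c (l k))

theorem PP_eq_sum {v : Fin n → Ten p n} {y : Fin (q+1) → Fin n → ZMod p} {l : Fin (q+1) → Fin n}
    (hl : Function.Injective l) {β : Fin (q+1) → ZMod p}
    (hv : ∀ k, v (l k) = fun j => β k * wd (y k) (y (k+1)) j)
    (ρ : PT p n) : PP v ρ = (∏ k, β k) * ((∑ ε : Fin (q+1) → ZMod p, PE y l ε ρ) * rst v l ρ) := by
  unfold PP rst
  rw [← Finset.prod_sdiff (Finset.subset_univ (Finset.image l Finset.univ)),
    mul_comm, ← mul_assoc]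
  congr 1
  rw [Finset.prod_image (fun a _ b _ h => hl h)]
  have : ∀ k, v (l k) (ev ρ (l k)) = β k * ∑ e : ZMod p,
      ∏ c, (if c = e then y (k+1) (ρ c (l k)) else y k (ρ c (l k))) := by
    intro k
    rw [hv k]
    rfl
  simp only [this]
  rw [Finset.prod_mul_distrib]
  congr 1
  rw [Finset.prod_univ_sum]
  simp only [Fintype.piFinset_univ]
  apply Finset.sum_congr rfl
  intro ε _
  unfold PE
  rw [Finset.prod_comm]

/-- change one permutation of the tuple -/
def upd (ρ : PT p n) (c : ZMod p) (π : Equiv.Perm (Fin n)) : PT p n :=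
  Function.update ρ c (ρ c * π)

theorem upd_same (ρ : PT p n) (c : ZMod p) (π : Equiv.Perm (Fin n)) :
    upd ρ c π c = ρ c * π := by simp [upd]

theorem upd_ne (ρ : PT p n) {c c' : ZMod p} (h : c' ≠ c) (π : Equiv.Perm (Fin n)) :
    upd ρ c π c' = ρ c' := by simp [upd, h]

theorem upd_upd (ρ : PT p n) (c : ZMod p) (π π' : Equiv.Perm (Fin n)) :
    upd (upd ρ c π) c π' = upd ρ c (π * π') := by
  unfold upd
  rw [Function.update_self, Function.update_idem, mul_assoc]

theorem upd_one (ρ : PT p n) (c : ZMod p) : upd ρ c 1 = ρ := by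
  unfold upd
  rw [mul_one, Function.update_eq_self]

def updE (c : ZMod p) (π : Equiv.Perm (Fin n)) : PT p n ≃ PT p n where
  toFun := fun ρ => upd ρ c π
  invFun := fun ρ => upd ρ c π⁻¹
  left_inv := fun ρ => by
    change upd (upd ρ c π) c π⁻¹ = ρ
    rw [upd_upd, mul_inv_cancel, upd_one]
  right_inv := fun ρ => by
    change upd (upd ρ c π⁻¹) c π = ρ
    rw [upd_upd, inv_mul_cancel, upd_one]

theorem sg_upd (ρ : PT p n) (c : ZMod p) (π : Equiv.Perm (Fin n)) :
    sg (upd ρ c π) = ((Equiv.Perm.sign π : ℤ) : ZMod p) * sg ρ := by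
  unfold sg
  rw [← Finset.mul_prod_erase Finset.univ _ (Finset.mem_univ c),
    ← Finset.mul_prod_erase Finset.univ (fun c => ((Equiv.Perm.sign (ρ c) : ℤ) : ZMod p))
      (Finset.mem_univ c), upd_same, Equiv.Perm.sign_mul]
  rw [Finset.prod_congr rfl (g := fun c => ((Equiv.Perm.sign (ρ c) : ℤ) : ZMod p))
    (fun c' hc' => by rw [upd_ne ρ (Finset.ne_of_mem_erase hc')])]
  push_cast
  ring

theorem ev_upd {ρ : PT p n} {c : ZMod p} {π : Equiv.Perm (Fin n)} {i : Fin n} (h : π i = i) :
    ev (upd ρ c π) i = ev ρ i := by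
  funext c'
  unfold ev
  by_cases hc : c' = c
  · subst hc
    rw [upd_same, Equiv.Perm.mul_apply, h]
  · rw [upd_ne ρ hc]

/-- the terms which are not constant contribute zero -/
theorem FE_aux {v : Fin n → Ten p n} {y : Fin (q+1) → Fin n → ZMod p} {l : Fin (q+1) → Fin n}
    (hl : Function.Injective l) {ε : Fin (q+1) → ZMod p} {k : Fin (q+1)}
    (h : ε (k+1) ≠ ε k) {s : Fin n} (hs : ∀ k, l k ≠ s) :
    ∑ ρ : PT p n, chi (ev ρ s) * (sg ρ * (PE y l ε ρ * rst v l ρ)) = 0 := by
  have hne : k + 1 ≠ k := by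
    intro h'; rw [h'] at h; exact h rfl
  have hlne : l k ≠ l (k+1) := fun h => hne (hl h).symm
  set τ := Equiv.swap (l k) (l (k+1)) with hτ
  have hτs : τ s = s := Equiv.swap_apply_of_ne_of_ne (hs k).symm (hs (k+1)).symm
  have key : ∀ ρ : PT p n, PE y l ε (upd ρ (ε k) τ) = PE y l ε ρ := by
    intro ρ
    unfold PE
    apply Finset.prod_congr rfl
    intro c _
    by_cases hc : c = ε k
    · rw [← Equiv.prod_comp (Equiv.swap k (k+1))]
      apply Finset.prod_congr rfl
      intro j _
      have e1 : upd ρ (ε k) τ c (l (Equiv.swap k (k+1) j)) = ρ c (l j) := by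
        rw [hc, upd_same, Equiv.Perm.mul_apply]
        congr 1
        rw [hτ, ← hl.swap_apply, Equiv.swap_apply_self]
      rw [e1]
      by_cases hj : j = k
      · rw [hj, Equiv.swap_apply_left, if_pos hc, if_neg]
        rw [hc]; exact h.symm
      by_cases hj' : j = k + 1
      · rw [hj', Equiv.swap_apply_right, if_pos hc, if_neg]
        rw [hc]; exact h.symm
      rw [Equiv.swap_apply_of_ne_of_ne hj hj']
    · apply Finset.prod_congr rfl
      intro j _
      rw [upd_ne ρ hc]
  have key2 : ∀ ρ : PT p n, rst v l (upd ρ (ε k) τ) = rst v l ρ := by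
    intro ρ
    unfold rst
    apply Finset.prod_congr rfl
    intro i hi
    have : ∀ k, l k ≠ i := by
      intro k hk
      simp at hi
      exact hi k hk
    rw [ev_upd]
    exact Equiv.swap_apply_of_ne_of_ne (this k).symm (this (k+1)).symm
  refine Finset.sum_involution (fun ρ _ => upd ρ (ε k) τ) ?_ ?_ ?_ ?_
  · intro ρ _
    rw [ev_upd hτs, sg_upd, key, key2, hτ, Equiv.Perm.sign_swap hlne]
    push_cast
    ring
  · intro ρ _ _ heq
    have h3 := congrFun heq (ε k)
    rw [upd_same] at h3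
    simp only [mul_eq_left] at h3
    rw [hτ, Equiv.swap_eq_one_iff] at h3
    exact hlne h3
  · intro ρ _; exact Finset.mem_univ _
  · intro ρ _
    rw [upd_upd, hτ, Equiv.swap_mul_self, upd_one]

/-- the constant terms are all equal -/
theorem FE_const {v : Fin n → Ten p n} {y : Fin (q+1) → Fin n → ZMod p}
    {l : Fin (q+1) → Fin n} (hl : Function.Injective l) {s : Fin n} (hs : ∀ k, l k ≠ s)
    {π : Equiv.Perm (Fin n)} (hπ : ∀ k, π (l k) = l (k+1)) (hπ' : ∀ i, (∀ k, l k ≠ i) → π i = i)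
    (e : ZMod p) :
    ∑ ρ : PT p n, chi (ev ρ s) * (sg ρ * (PE y l (fun _ => e) ρ * rst v l ρ)) =
      ((Equiv.Perm.sign π : ℤ) : ZMod p) *
      ∑ ρ : PT p n, chi (ev ρ s) * (sg ρ * ((∏ c, ∏ k, y k (ρ c (l k))) * rst v l ρ)) := by
  rw [← Equiv.sum_comp (updE e π), Finset.mul_sum]
  apply Finset.sum_congr rfl
  intro ρ _
  change chi (ev (upd ρ e π) s) * (sg (upd ρ e π) * (PE y l (fun _ => e) (upd ρ e π) *
    rst v l (upd ρ e π))) = _
  have e1 : rst v l (upd ρ e π) = rst v l ρ := by
    unfold rst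
    apply Finset.prod_congr rfl
    intro i hi
    rw [ev_upd]
    apply hπ'
    intro k hk
    simp at hi
    exact hi k hk
  have e2 : PE y l (fun _ => e) (upd ρ e π) = ∏ c, ∏ k, y k (ρ c (l k)) := by
    unfold PE
    apply Finset.prod_congr rfl
    intro c _
    by_cases hc : c = e
    · subst hc
      rw [← Equiv.prod_comp (Equiv.addRight (1 : Fin (q+1))) (fun k => y k (ρ c (l k)))]
      apply Finset.prod_congr rfl
      intro k _
      rw [if_pos rfl, upd_same, Equiv.Perm.mul_apply, hπ]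
      rfl
    · apply Finset.prod_congr rfl
      intro k _
      rw [if_neg hc, upd_ne ρ hc]
  rw [ev_upd (hπ' s hs), sg_upd, e1, e2]
  ring

/-- the key vanishing property -/
theorem hf_cyc {v : Fin n → Ten p n} (hv : ∀ i, SZ (v i)) {y : Fin (q+1) → Fin n → ZMod p}
    {l : Fin (q+1) → Fin n} (hl : Function.Injective l) {β : Fin (q+1) → ZMod p}
    (hvl : ∀ k, v (l k) = fun j => β k * wd (y k) (y (k+1)) j) (hq : q + 1 < n) (s0 : Fin n) :
    hf s0 v = 0 := by
  obtain ⟨s, hs⟩ : ∃ s : Fin n, ∀ k, l k ≠ s := by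
    by_contra hcon
    push Not at hcon
    have : Function.Surjective l := fun i => by
      obtain ⟨k, hk⟩ := hcon i; exact ⟨k, hk⟩
    have := Fintype.card_le_of_surjective l this
    simp at this
    omega
  rw [hf_indep hv s0 s]
  let π : Equiv.Perm (Fin n) := (Equiv.addRight (1 : Fin (q+1))).viaEmbedding ⟨l, hl⟩
  have hπ : ∀ k, π (l k) = l (k+1) := by
    intro k
    exact Equiv.Perm.viaEmbedding_apply (Equiv.addRight (1 : Fin (q+1))) ⟨l, hl⟩ k
  have hπ' : ∀ i, (∀ k, l k ≠ i) → π i = i := by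
    intro i hi
    apply Equiv.Perm.viaEmbedding_apply_of_notMem
    rintro ⟨k, hk⟩
    exact hi k hk
  let f : (Fin (q+1) → ZMod p) → ZMod p := fun ε =>
    ∑ ρ : PT p n, chi (ev ρ s) * (sg ρ * (PE y l ε ρ * rst v l ρ))
  have e1 : hf s v = (∏ k, β k) * ∑ ε, f ε := by
    unfold hf
    simp only [f]
    rw [Finset.sum_comm, Finset.mul_sum]
    apply Finset.sum_congr rfl
    intro ρ _
    rw [PP_eq_sum hl hvl, Finset.sum_mul, ← Finset.mul_sum, ← Finset.mul_sum]
    ring
  have e2 : ∑ ε, f ε = ∑ e : ZMod p, f (fun _ => e) := by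
    symm
    apply Finset.sum_of_injOn (fun (e : ZMod p) (_ : Fin (q+1)) => e)
    · intro a _ b _ hab
      exact congrFun hab 0
    · intro a _; exact Finset.mem_coe.mpr (Finset.mem_univ _)
    · intro ε _ hε
      have : ∃ k, ε (k+1) ≠ ε k := by
        by_contra hcon
        push Not at hcon
        apply hε
        refine ⟨ε 0, Finset.mem_coe.mpr (Finset.mem_univ _), ?_⟩
        funext k
        induction k using Fin.induction with
        | zero => rfl
        | succ i ih =>
          have := hcon i.castSucc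
          rw [Fin.coeSucc_eq_succ] at this
          rw [this, ← ih]
      obtain ⟨k, hk⟩ := this
      exact FE_aux hl hk hs
    · intro _ _; rfl
  rw [e1, e2]
  have e3 : ∀ e, f (fun _ => e) = f (fun _ => 0) := by
    intro e
    simp only [f]
    rw [FE_const hl hs hπ hπ', FE_const hl hs hπ hπ']
  simp only [e3]
  rw [Finset.sum_const, Finset.card_univ, ZMod.card, nsmul_eq_mul, CharP.cast_eq_zero, zero_mul,
    mul_zero]

end cyc

end Pool.Agent.Helper429.LF2
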