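import Mathlib
import Pool.Agent.Helper429.LF.Hyp

set_option autoImplicit false
set_option linter.unusedSectionVars false
set_option linter.unusedVariables false

/-!
# Iterated differences of the function `hf`
-/

namespace Pool.Agent.Helper429.LF2

open Finset

section

variable {p : ℕ} [hp : Fact p.Prime] {n q : ℕ}

def gS (C : Fin n → Ten p n) (b : Fin (q+1) → Fin n → ZMod p) (w : Fin (q+1) → Ten p n)
    (S : Finset (Fin (q+1))) (i : Fin n) : Option (Fin (q+1)) → Ten p n
  | none => C i
  | some k => fun j => if k ∈ S then b k i * w k j else 0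

theorem gS_sum (C : Fin n → Ten p n) (b : Fin (q+1) → Fin n → ZMod p) (w : Fin (q+1) → Ten p n)
    (S : Finset (Fin (q+1))) (i : Fin n) (j : ZMod p → Fin n) :
    ∑ o, gS C b w S i o j = C i j + ∑ k ∈ S, b k i * w k j := by
  rw [Fintype.sum_option]
  simp [gS, Finset.sum_ite_mem]

/-- membership toggling -/
def tog (k : Fin (q+1)) (S : Finset (Fin (q+1))) : Finset (Fin (q+1)) :=
  if k ∈ S then S.erase k else insert k S

theorem mem_tog {k k' : Fin (q+1)} (S : Finset (Fin (q+1))) (h : k' ≠ k) :
    k' ∈ tog k S ↔ k' ∈ S := by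
  unfold tog
  split_ifs with hk
  · simp [h]
  · simp [h]

theorem tog_tog (k : Fin (q+1)) (S : Finset (Fin (q+1))) : tog k (tog k S) = S := by
  unfold tog
  by_cases hk : k ∈ S
  · simp [hk, Finset.insert_erase hk]
  · simp [hk]

theorem tog_ne (k : Fin (q+1)) (S : Finset (Fin (q+1))) : tog k S ≠ S := by
  unfold tog
  by_cases hk : k ∈ S
  · rw [if_pos hk]
    intro h
    have : k ∈ S.erase k := by rw [h]; exact hk
    simp at this
  · rw [if_neg hk]
    intro h
    apply hk
    rw [← h]; simp

/-- the sign of a set -/
def sn (p : ℕ) {α : Type} (S : Finset α) : ZMod p := (-1) ^ S.card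

theorem sn_tog (k : Fin (q+1)) (S : Finset (Fin (q+1))) : sn p (tog k S) = - sn p S := by
  unfold sn tog
  by_cases hk : k ∈ S
  · rw [if_pos hk]
    have h1 := Finset.card_erase_add_one hk
    rw [← h1, pow_succ]; ring
  · rw [if_neg hk, Finset.card_insert_of_notMem hk, pow_succ]; ring

theorem P1 {C : Fin n → Ten p n} (hC : ∀ i, SZ (C i)) (b : Fin (q+1) → Fin n → ZMod p)
    (y : Fin (q+1) → Fin n → ZMod p) (hq : q + 1 ≠ n) (s0 : Fin n) :
    ∑ S : Finset (Fin (q+1)), sn p S *
      hf s0 (fun i j => C i j + ∑ k ∈ S, b k i * wd (y k) (y (k+1)) j) = 0 := by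
  set w : Fin (q+1) → Ten p n := fun k => wd (y k) (y (k+1)) with hw
  have e1 : ∀ S : Finset (Fin (q+1)),
      sn p S * hf s0 (fun i j => C i j + ∑ k ∈ S, b k i * wd (y k) (y (k+1)) j) =
        ∑ r : Fin n → Option (Fin (q+1)), sn p S * hf s0 (fun i => gS C b w S i (r i)) := by
    intro S
    rw [← Finset.mul_sum, ← hf_expand]
    simp only [gS_sum]
    rfl
  simp only [e1]
  rw [Finset.sum_comm]
  apply Finset.sum_eq_zero
  intro r _
  by_cases hr : ∀ k : Fin (q+1), ∃ i, r i = some k
  · choose l hl using hr
    have hinj : Function.Injective l := by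
      intro k k' h
      have h1 := hl k
      rw [h, hl k'] at h1
      exact (Option.some.inj h1).symm
    have hlt : q + 1 < n := by
      have := Fintype.card_le_of_injective l hinj
      simp at this
      omega
    apply Finset.sum_eq_zero
    intro S _
    rw [hf_cyc (v := fun i => gS C b w S i (r i)) (y := y) (l := l)
      (β := fun k => if k ∈ S then b k (l k) else 0) _ hinj _ hlt, mul_zero]
    · intro i
      cases h : r i with
      | none =>
        exact hC i
      | some k =>
        simp only [gS]
        constructor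
        · intro d j
          change (if k ∈ S then b k i * w k (rot d j) else 0) = (if k ∈ S then b k i * w k j else 0)
          rw [show w k (rot d j) = w k j from (wd_SZ (y k) (y (k+1))).1 d j]
        · intro a
          change (if k ∈ S then b k i * w k (fun _ => a) else 0) = 0
          rw [show w k (fun _ => a) = 0 from (wd_SZ (y k) (y (k+1))).2 a]
          simp
    · intro k
      simp only [hl k, gS]
      funext j
      by_cases hk : k ∈ S
      · simp only [hk, if_true, hw]
      · simp only [hk, if_false, zero_mul]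
  · push Not at hr
    obtain ⟨k, hk⟩ := hr
    refine Finset.sum_involution (fun S _ => tog k S) ?_ ?_ ?_ ?_
    · intro S _
      have : (fun i => gS C b w (tog k S) i (r i)) = (fun i => gS C b w S i (r i)) := by
        funext i
        cases h : r i with
        | none => rfl
        | some k' =>
          have hne : k' ≠ k := by
            rintro rfl
            exact hk i h
          funext j
          simp only [gS]
          by_cases h2 : k' ∈ S
          · rw [if_pos h2, if_pos ((mem_tog S hne).mpr h2)]
          · rw [if_neg h2, if_neg (fun h3 => h2 ((mem_tog S hne).mp h3))]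
      rw [this, sn_tog]
      ring
    · intro S _ _; exact tog_ne k S
    · intro S _; exact Finset.mem_univ _
    · intro S _; exact tog_tog k S

end

section top

variable {p : ℕ} [hp : Fact p.Prime] {q : ℕ}

/-- shift in one colour -/
def shc (q : ℕ) (e : ZMod p) : PT p (q+1) := fun c => if c = e then Equiv.addRight 1 else 1

theorem wd_single {i : Fin (q+1)} (hi : i + 1 ≠ i) {j : ZMod p → Fin (q+1)}
    (h : wd (p := p) (Pi.single i 1) (Pi.single (i+1) 1) j ≠ 0) :
    ∃ e, j e = i + 1 ∧ ∀ c, c ≠ e → j c = i := by
  unfold wd at h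
  obtain ⟨e, _, he⟩ := Finset.exists_ne_zero_of_sum_ne_zero h
  rw [Finset.prod_ne_zero_iff] at he
  refine ⟨e, ?_, ?_⟩
  · have := he e (Finset.mem_univ _)
    rw [if_pos rfl] at this
    by_contra hcon
    exact this (Pi.single_eq_of_ne hcon _)
  · intro c hc
    have := he c (Finset.mem_univ _)
    rw [if_neg hc] at this
    by_contra hcon
    exact this (Pi.single_eq_of_ne hcon _)

theorem wd_single_val {i : Fin (q+1)} (hi : i + 1 ≠ i) (e : ZMod p) :
    wd (p := p) (Pi.single i 1) (Pi.single (i+1) 1) (fun c => if c = e then i + 1 else i) = 1 := by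
  unfold wd
  rw [Finset.sum_eq_single e]
  · apply Finset.prod_eq_one
    intro c _
    by_cases hc : c = e
    · rw [if_pos hc]; beta_reduce; rw [if_pos hc, Pi.single_eq_same]
    · rw [if_neg hc]; beta_reduce; rw [if_neg hc, Pi.single_eq_same]
  · intro e' _ he'
    apply Finset.prod_eq_zero (Finset.mem_univ e')
    rw [if_pos rfl]; beta_reduce; rw [if_neg he', Pi.single_eq_of_ne hi.symm]
  · intro h; exact absurd (Finset.mem_univ _) h

/-- the value on the cycle -/
theorem hf_top (hq : 1 ≤ q) :
    hf (p := p) (0 : Fin (q+1)) (fun i => wd (Pi.single i 1) (Pi.single (i+1) 1)) =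
      ((Equiv.Perm.sign (Equiv.addRight (1 : Fin (q+1))) : ℤ) : ZMod p) := by
  have hne : ∀ i : Fin (q+1), i + 1 ≠ i := by
    intro i h
    have h1 : (1 : Fin (q+1)) = 0 := by simpa using h
    have := congrArg Fin.val h1
    rw [Fin.val_zero, Fin.val_one'] at this
    rw [Nat.mod_eq_of_lt (by omega)] at this
    omega
  have hev : ∀ (e : ZMod p) (i : Fin (q+1)), ev (shc q e) i = fun c => if c = e then i + 1 else i := by
    intro e i
    funext c
    unfold ev shc
    by_cases hc : c = e
    · rw [if_pos hc, if_pos hc]; rfl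
    · rw [if_neg hc, if_neg hc]; rfl
  have hsg : ∀ e : ZMod p, sg (shc q e) =
      ((Equiv.Perm.sign (Equiv.addRight (1 : Fin (q+1))) : ℤ) : ZMod p) := by
    intro e
    unfold sg shc
    rw [Finset.prod_eq_single e]
    · rw [if_pos rfl]
    · intro c _ hc
      rw [if_neg hc]; simp
    · intro h; exact absurd (Finset.mem_univ _) h
  have hPP : ∀ e : ZMod p, PP (fun i : Fin (q+1) => wd (p := p) (Pi.single i 1)
      (Pi.single (i+1) 1)) (shc q e) = 1 := by
    intro e
    unfold PP
    apply Finset.prod_eq_one
    intro i _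
    rw [hev]
    exact wd_single_val (hne i) e
  have hsum : hf (p := p) (0 : Fin (q+1)) (fun i => wd (Pi.single i 1) (Pi.single (i+1) 1)) =
      ∑ e : ZMod p, chi (ev (shc q e) 0) * (sg (shc q e) * PP (fun i : Fin (q+1) =>
        wd (p := p) (Pi.single i 1) (Pi.single (i+1) 1)) (shc q e)) := by
    unfold hf
    symm
    apply Finset.sum_of_injOn (fun e : ZMod p => shc q e)
    · intro a _ b _ hab
      by_contra hne'
      have h1 := congrFun hab a
      simp only [shc, if_neg hne'] at h1
      have h2 := congrFun (congrArg DFunLike.coe h1) 0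
      exact hne 0 h2
    · intro a _; exact Finset.mem_coe.mpr (Finset.mem_univ _)
    · intro ρ _ hρ
      by_contra hcon
      apply hρ
      have h1 : PP (fun i : Fin (q+1) => wd (p := p) (Pi.single i 1) (Pi.single (i+1) 1)) ρ ≠ 0 := by
        intro h; rw [h, mul_zero, mul_zero] at hcon; exact hcon rfl
      unfold PP at h1
      rw [Finset.prod_ne_zero_iff] at h1
      have h2 : ∀ i : Fin (q+1), ∃ e : ZMod p, ρ e i = i + 1 ∧ ∀ c, c ≠ e → ρ c i = i := fun i =>
        wd_single (hne i) (h1 i (Finset.mem_univ _))
      choose e he1 he2 using h2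
      have h3 : ∀ i, e (i+1) = e i := by
        intro i
        by_contra h
        have h4 := he2 (i+1) (e i) (Ne.symm h)
        have h5 := he1 i
        have h6 := (ρ (e i)).injective (h4.trans h5.symm)
        exact hne i h6
      have h4 : ∀ i, e i = e 0 := by
        intro i
        induction i using Fin.induction with
        | zero => rfl
        | succ i ih =>
          have := h3 i.castSucc
          rw [Fin.coeSucc_eq_succ] at this
          rw [this, ih]
      refine ⟨e 0, Finset.mem_coe.mpr (Finset.mem_univ _), ?_⟩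
      funext c
      change shc q (e 0) c = ρ c
      unfold shc
      by_cases hc : c = e 0
      · rw [if_pos hc]
        ext i
        rw [hc, ← h4 i, he1 i]; rfl
      · rw [if_neg hc]
        ext i
        rw [he2 i c (by rw [h4 i]; exact hc)]; rfl
    · intro _ _; rfl
  rw [hsum]
  simp only [hsg, hPP, mul_one]
  rw [← Finset.sum_mul]
  have h0 : ∑ e : ZMod p, chi (ev (shc q e) 0) = 1 := by
    rw [← Equiv.sum_comp (Equiv.neg (ZMod p))]
    have : ∀ d : ZMod p, ev (shc q (Equiv.neg (ZMod p) d)) 0 =
        rot d (fun c : ZMod p => if c = 0 then (1 : Fin (q+1)) else 0) := by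
      intro d
      rw [hev]
      funext c
      simp only [Equiv.neg_apply, zero_add, rot, ← eq_neg_iff_add_eq_zero]
    simp only [this]
    apply chi_sum (c := 1)
    rw [if_neg one_ne_zero, if_pos rfl]
    have := hne 0
    rw [zero_add] at this
    exact this.symm
  rw [h0, one_mul]

theorem P2 (hq : 1 ≤ q) :
    ∑ S : Finset (Fin (q+1)), sn p S *
      hf (0 : Fin (q+1)) (fun i j => 0 + ∑ k ∈ S, (Pi.single k 1 : Fin (q+1) → ZMod p) i *
        wd (Pi.single k 1) (Pi.single (k+1) 1) j) ≠ 0 := by
  rw [Finset.sum_eq_single Finset.univ]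
  · have : (fun (i : Fin (q+1)) (j : ZMod p → Fin (q+1)) => 0 + ∑ k ∈ Finset.univ,
        (Pi.single k 1 : Fin (q+1) → ZMod p) i *
        wd (Pi.single k 1) (Pi.single (k+1) 1) j) =
        (fun i => wd (Pi.single i 1) (Pi.single (i+1) 1)) := by
      funext i j
      rw [zero_add, Finset.sum_eq_single i]
      · simp
      · intro k _ hk
        simp [hk.symm]
      · intro h; exact absurd (Finset.mem_univ _) h
    rw [this, hf_top hq]
    apply mul_ne_zero
    · unfold sn
      exact pow_ne_zero _ (neg_ne_zero.mpr one_ne_zero)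
    · rcases Int.units_eq_one_or (Equiv.Perm.sign (Equiv.addRight (1 : Fin (q+1)))) with h | h
      · rw [h]; simp
      · rw [h]; simp
  · intro S _ hS
    obtain ⟨i, hi⟩ : ∃ i, i ∉ S := by
      by_contra h
      push Not at h
      exact hS (Finset.eq_univ_iff_forall.mpr h)
    rw [hf_slot_zero _ (i := i), mul_zero]
    intro j
    rw [zero_add]
    apply Finset.sum_eq_zero
    intro k hk
    have : i ≠ k := by rintro rfl; exact hi hk
    simp [this]
  · intro h; exact absurd (Finset.mem_univ _) h

end top

end Pool.Agent.Helper429.LF2
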