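import Mathlib
import Pool.Agent.Helper429.LF.Core
import Pool.Agent.Helper429.LF.Hyp
import Pool.Agent.Helper429.LF.Hyp2
import Pool.Agent.Helper429.LF.Wr

set_option autoImplicit false
set_option linter.unusedSectionVars false
set_option linter.unusedVariables false

/-!
# The test groups and the words
-/

namespace Pool.Agent.Helper429.LF2

open Pool.Agent.Helper429.LF1 (F cm map_cm)

/-! ### functions on a group extended by the group -/

@[ext] structure WG (p : ℕ) (T : Type) where
  f : T → ZMod p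
  t : T

namespace WG

variable {p : ℕ} {T : Type} [Group T]

instance : Mul (WG p T) := ⟨fun x y => ⟨fun s => x.f s + y.f (s * x.t), x.t * y.t⟩⟩
instance : One (WG p T) := ⟨⟨fun _ => 0, 1⟩⟩
instance : Inv (WG p T) := ⟨fun x => ⟨fun s => - x.f (s * x.t⁻¹), x.t⁻¹⟩⟩

theorem mul_f (x y : WG p T) (s : T) : (x * y).f s = x.f s + y.f (s * x.t) := rfl
theorem mul_t (x y : WG p T) : (x * y).t = x.t * y.t := rfl
theorem one_f (s : T) : (1 : WG p T).f s = 0 := rfl
theorem one_t : (1 : WG p T).t = 1 := rfl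
theorem inv_f (x : WG p T) (s : T) : (x⁻¹).f s = - x.f (s * x.t⁻¹) := rfl
theorem inv_t (x : WG p T) : (x⁻¹).t = x.t⁻¹ := rfl

instance : Group (WG p T) := Group.ofLeftAxioms
  (by
    intro x y z
    ext
    · simp only [mul_f, mul_t, mul_assoc, add_assoc]
    · simp only [mul_t, mul_assoc])
  (by
    intro x
    ext
    · simp only [mul_f, one_f, one_t, mul_one, zero_add]
    · simp only [mul_t, one_t, one_mul])
  (by
    intro x
    ext
    · simp only [mul_f, inv_f, one_f, inv_t, neg_add_cancel]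
    · simp only [mul_t, inv_t, one_t, inv_mul_cancel])

def proj : WG p T →* T where
  toFun := fun x => x.t
  map_one' := rfl
  map_mul' := fun _ _ => rfl

/-- difference operator -/
def dl (u : T) (f : T → ZMod p) : T → ZMod p := fun s => f s - f (s * u)

theorem cm_of {e : WG p T} (he : e.t = 1) (g : WG p T) :
    (cm e g).t = 1 ∧ (cm e g).f = dl g.t e.f := by
  constructor
  · simp only [cm, mul_t, inv_t, he]; group
  · funext s
    simp only [cm, mul_f, mul_t, inv_f, inv_t, he, dl]
    have e1 : s * (1 * g.t) * 1⁻¹ = s * g.t := by group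
    have e2 : s * (1 * g.t * 1⁻¹) * g.t⁻¹ = s := by group
    rw [e1, e2, mul_one]
    ring

theorem comm_of {x y : WG p T} (hx : x.t = 1) (hy : y.t = 1) : x * y = y * x := by
  ext s
  · rw [mul_f, mul_f, hx, hy, mul_one, add_comm]
  · rw [mul_t, mul_t, hx, hy]

theorem pow_of {x : WG p T} (hx : x.t = 1) (k : ℕ) : (x ^ k).t = 1 ∧
    ∀ s, (x ^ k).f s = k • x.f s := by
  induction k with
  | zero => exact ⟨rfl, fun s => by rw [pow_zero, one_f, zero_smul]⟩
  | succ k ih =>
    constructor
    · rw [pow_succ, mul_t, ih.1, hx, one_mul]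
    · intro s
      rw [pow_succ, mul_f, ih.2, ih.1, mul_one, succ_nsmul]

theorem powp_of {x : WG p T} (hx : x.t = 1) : x ^ p = 1 := by
  ext s
  · rw [(pow_of hx p).2, one_f]; simp
  · exact (pow_of hx p).1

end WG

open WG

section chain

variable {T : Type*} [Group T]

def chain (e : T) (u : ℕ → T) : ℕ → T
  | 0 => e
  | k+1 => cm (chain e u k) (u k)

theorem map_chain {T' : Type*} [Group T'] (φ : T →* T') (e : T) (u : ℕ → T) (k : ℕ) :
    φ (chain e u k) = chain (φ e) (fun i => φ (u i)) k := by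
  induction k with
  | zero => rfl
  | succ k ih => rw [chain, chain, map_cm, ih]

/-- the word `[[x₀, x₁], [x₂, x₃]]` -/
def ee (z : ℕ → T) : T := cm (cm (z 0) (z 1)) (cm (z 2) (z 3))

theorem map_ee {T' : Type*} [Group T'] (φ : T →* T') (z : ℕ → T) :
    φ (ee z) = ee (fun i => φ (z i)) := by simp [ee]

/-- the elements `[z_k^p, z_{k+1}]`, indices modulo `q+1` -/
def uu (p : ℕ) (z : ℕ → T) (q : ℕ) : ℕ → T := fun k => uv p (z k) (z ((k+1) % (q+1)))

end chain

section dls

variable {p : ℕ} {T : Type} [Group T]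

def dls (u : ℕ → T) : ℕ → (T → ZMod p) → (T → ZMod p)
  | 0, f => f
  | k+1, f => dl (u k) (dls u k f)

theorem chain_of {e : WG p T} (he : e.t = 1) (u : ℕ → WG p T) (k : ℕ) :
    (chain e u k).t = 1 ∧ (chain e u k).f = dls (fun i => (u i).t) k e.f := by
  induction k with
  | zero => exact ⟨he, rfl⟩
  | succ k ih =>
    have := cm_of ih.1 (u k)
    refine ⟨this.1, ?_⟩
    rw [chain, this.2, ih.2]; rfl

theorem dls_add (u : ℕ → T) (k : ℕ) (f g : T → ZMod p) :
    dls u k (f + g) = dls u k f + dls u k g := by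
  induction k with
  | zero => rfl
  | succ k ih =>
    funext s
    simp only [dls, dl, ih, Pi.add_apply]; ring

theorem dls_zero (u : ℕ → T) (k : ℕ) : dls (p := p) u k 0 = 0 := by
  induction k with
  | zero => rfl
  | succ k ih =>
    funext s
    simp [dls, dl, ih]

theorem dls_neg (u : ℕ → T) (k : ℕ) (f : T → ZMod p) : dls u k (-f) = - dls u k f := by
  have h := dls_add u k f (-f)
  rw [add_neg_cancel, dls_zero] at h
  exact (neg_eq_of_add_eq_zero_right h.symm).symm

/-- right translation -/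
def rt (t : T) (f : T → ZMod p) : T → ZMod p := fun s => f (s * t)

theorem dls_rt (u : ℕ → T) (k : ℕ) (t : T) (f : T → ZMod p) :
    dls u k (rt t f) = rt t (dls (fun i => t⁻¹ * u i * t) k f) := by
  induction k with
  | zero => rfl
  | succ k ih =>
    funext s
    simp only [dls, dl, ih, rt]
    congr 2
    group

theorem dl_eq (t : T) (f : T → ZMod p) : dl t f = f + -(rt t f) := by
  funext s; simp only [dl, rt, Pi.add_apply, Pi.neg_apply]; ring

/-- vanishing off a set which is stable under the operators -/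
theorem dls_supp {u : ℕ → T} {f : T → ZMod p} {P : T → Prop} (hP : ∀ s k, P s → P (s * u k))
    (hf : ∀ s, P s → f s = 0) (k : ℕ) {s : T} (hs : P s) : dls u k f s = 0 := by
  induction k generalizing s with
  | zero => exact hf s hs
  | succ k ih =>
    change dls u k f s - dls u k f (s * u k) = 0
    rw [ih hs, ih (hP s k hs), sub_zero]

end dls

section words

variable (p : ℕ)

/-- `[[[x₀,x₁],[x₂,x₃]], [z₀^p,z₁], [z₁^p,z₂], …, [z_q^p,z₀]]` -/
def wrd (q : ℕ) : F :=
  chain (ee (fun i => FreeGroup.of i)) (uu p (fun k => FreeGroup.of (4+k)) q) (q+1)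

theorem map_wrd {T : Type*} [Group T] (φ : F →* T) (q : ℕ) :
    φ (wrd p q) = chain (ee (fun i => φ (FreeGroup.of i)))
      (uu p (fun k => φ (FreeGroup.of (4+k))) q) (q+1) := by
  unfold wrd
  rw [map_chain, map_ee]
  congr 1
  funext k
  simp only [uu, map_uv]

end words

/-! ### the module -/

section module

variable {p : ℕ} [hp : Fact p.Prime]

theorem uu_x {n : ℕ} (z : ℕ → WT p n) (q i : ℕ) : (uu p z q i).x = 0 := uv_x _ _

theorem uu_conj {n : ℕ} (z : ℕ → WT p n) (q : ℕ) (t : WT p n) :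
    (fun i => t⁻¹ * uu p z q i * t) = uu p (fun k => t⁻¹ * z k * t) q := by
  funext i
  have h := map_uv (MulAut.conj t⁻¹).toMonoidHom p (z i) (z ((i+1) % (q+1)))
  simp only [MulEquiv.coe_toMonoidHom, MulAut.conj_apply, inv_inv] at h
  exact h

variable (p)

def MM (n : ℕ) : AddSubgroup (WT p n → ZMod p) where
  carrier := {f | ∀ q, q + 1 ≠ n → ∀ z : ℕ → WT p n, dls (uu p z q) (q+1) f = 0}
  add_mem' := by
    intro f g hf hg q hq z
    rw [dls_add, hf q hq, hg q hq, add_zero]
  zero_mem' := by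
    intro q hq z
    rw [dls_zero]
  neg_mem' := by
    intro f hf q hq z
    rw [dls_neg, hf q hq, neg_zero]

variable {p}

theorem MM_rt {n : ℕ} {f : WT p n → ZMod p} (hf : f ∈ MM p n) (t : WT p n) : rt t f ∈ MM p n := by
  intro q hq z
  rw [dls_rt, uu_conj, hf q hq]
  rfl

variable (p)

/-- the test group -/
def GN (n : ℕ) : Subgroup (WG p (WT p n)) where
  carrier := {x | x.f ∈ MM p n}
  mul_mem' := by
    intro x y hx hy
    have : (x * y).f = x.f + rt x.t y.f := rfl
    change (x * y).f ∈ MM p n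
    rw [this]
    exact AddSubgroup.add_mem _ hx (MM_rt hy _)
  one_mem' := (MM p n).zero_mem
  inv_mem' := by
    intro x hx
    have : (x⁻¹).f = - rt x.t⁻¹ x.f := rfl
    change (x⁻¹).f ∈ MM p n
    rw [this]
    exact AddSubgroup.neg_mem _ (MM_rt hx _)

variable {p}

theorem ee_t {n : ℕ} (z : ℕ → WG p (WT p n)) : (ee z).t = 1 := by
  have : (ee z).t = ee (fun i => (z i).t) := map_ee (proj (p := p) (T := WT p n)) z
  rw [this]
  exact WT.cm_comm_of (WT.cm_x _ _) (WT.cm_x _ _)

theorem uu_t {n : ℕ} (z : ℕ → WG p (WT p n)) (q : ℕ) :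
    (fun i => (uu p z q i).t) = uu p (fun i => (z i).t) q := by
  funext k
  exact map_uv (proj (p := p) (T := WT p n)) _ _ _

theorem GN_wrd {n q : ℕ} (hq : q + 1 ≠ n) (φ : F →* GN p n) : φ (wrd p q) = 1 := by
  apply (GN p n).subtype_injective
  rw [map_one]
  change ((GN p n).subtype.comp φ) (wrd p q) = 1
  rw [map_wrd]
  have h1 := ee_t (fun i => ((GN p n).subtype.comp φ) (FreeGroup.of i))
  have h3 := chain_of h1 (uu p (fun k => ((GN p n).subtype.comp φ) (FreeGroup.of (4+k))) q) (q+1)
  have hmem : (ee (fun i => ((GN p n).subtype.comp φ) (FreeGroup.of i))).f ∈ MM p n := by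
    rw [← map_ee]
    exact (φ (ee (fun i => FreeGroup.of i))).2
  ext1
  · rw [h3.2, uu_t]
    exact hmem q hq _
  · exact h3.1

end module

/-! ### the function -/

section phi

variable {p : ℕ} [hp : Fact p.Prime]

open Classical in
noncomputable def Phi (p : ℕ) [Fact p.Prime] (N : ℕ) : WT p (N+1) → ZMod p := fun s =>
  if InD s then hf (0 : Fin (N+1)) (Cm s) else 0

theorem shg_shg {n : ℕ} (s : WT p n) (h h' : Fin n → (Fin n → ZMod p) → ZMod p) :
    shg (shg s h) h' = shg s (fun i e => h i e + h' i e) := by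
  unfold shg
  ext i e
  · simp only []; ring
  · rfl

theorem shg_zero {n : ℕ} (s : WT p n) : shg s (fun _ _ => 0) = s := by
  unfold shg
  ext i e
  · simp only [add_zero]
  · rfl

theorem mul_shg {n : ℕ} {s u : WT p n} (hs : s.x = 0) (hu : u.x = 0) : s * u = shg s u.g := by
  ext i e
  · rw [WT.mul_g, hs, sub_zero]; rfl
  · rw [WT.mul_x, hu, add_zero]; rfl

theorem dls_formula {n : ℕ} {u : ℕ → WT p n} (hu : ∀ i, (u i).x = 0) (f : WT p n → ZMod p) (k : ℕ)
    {s : WT p n} (hs : s.x = 0) :
    dls u k f s = ∑ S ∈ (Finset.range k).powerset,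
      sn p S * f (shg s (fun i e => ∑ l ∈ S, (u l).g i e)) := by
  induction k generalizing s with
  | zero =>
    simp [dls, shg_zero, sn]
  | succ k ih =>
    rw [Finset.range_add_one, Finset.sum_powerset_insert Finset.notMem_range_self]
    simp only [dls, dl]
    have hx : (s * u k).x = 0 := by rw [WT.mul_x, hs, hu, add_zero]
    rw [ih hs, ih hx, sub_eq_add_neg, ← Finset.sum_neg_distrib]
    congr 1
    apply Finset.sum_congr rfl
    intro S hS
    have hk : k ∉ S := fun h => Finset.notMem_range_self (Finset.mem_powerset.mp hS h)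
    rw [mul_shg hs (hu k), shg_shg]
    have e1 : sn p (insert k S) = - sn p S := by
      unfold sn
      rw [Finset.card_insert_of_notMem hk, pow_succ]; ring
    rw [e1, neg_mul]
    congr 3
    congr 1
    funext i e
    rw [Finset.sum_insert hk]

theorem sum_powerset_fin (m : ℕ) (G : Finset ℕ → ZMod p) :
    ∑ S ∈ (Finset.range m).powerset, G S = ∑ S : Finset (Fin m), G (S.map Fin.valEmbedding) := by
  symm
  refine Finset.sum_bij' (fun S _ => S.map Fin.valEmbedding)
    (fun S _ => Finset.univ.filter (fun k : Fin m => (k : ℕ) ∈ S)) ?_ ?_ ?_ ?_ ?_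
  · intro S _
    rw [Finset.mem_powerset]
    intro x hx
    rw [Finset.mem_map] at hx
    obtain ⟨k, _, rfl⟩ := hx
    exact Finset.mem_range.mpr k.2
  · intro S _; exact Finset.mem_univ _
  · intro S _
    ext k
    simp only [Finset.mem_filter, Finset.mem_univ, true_and, Finset.mem_map,
      Fin.valEmbedding_apply]
    constructor
    · rintro ⟨a, ha, h⟩
      rwa [Fin.ext h] at ha
    · intro h
      exact ⟨k, h, rfl⟩
  · intro S hS
    rw [Finset.mem_powerset] at hS
    ext x
    rw [Finset.mem_map]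
    constructor
    · rintro ⟨k, hk, rfl⟩
      exact (Finset.mem_filter.mp hk).2
    · intro hx
      exact ⟨⟨x, Finset.mem_range.mp (hS hx)⟩, Finset.mem_filter.mpr ⟨Finset.mem_univ _, hx⟩, rfl⟩
  · intro S _; rfl

theorem dls_Phi (N q : ℕ) (z : ℕ → WT p (N+1)) {s : WT p (N+1)} (hs : InD s) :
    dls (uu p z q) (q+1) (Phi p N) s = ∑ S : Finset (Fin (q+1)), sn p S *
      hf (0 : Fin (N+1)) (fun i j => Cm s i j + ∑ k ∈ S,
        (∑ e, (z k).g i e) * wd (z k).x (z ((k+1 : Fin (q+1)) : ℕ)).x j) := by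
  rw [dls_formula (u := uu p z q) (uu_x z q) _ _ hs.1, sum_powerset_fin]
  apply Finset.sum_congr rfl
  intro S _
  have e0 : sn p (S.map Fin.valEmbedding) = sn p S := by
    unfold sn; rw [Finset.card_map]
  rw [e0]
  congr 1
  have e3 : ∀ k : Fin (q+1), ((k : ℕ) + 1) % (q + 1) = ((k + 1 : Fin (q+1)) : ℕ) := by
    intro k
    rw [Fin.val_add, Fin.val_one', Nat.add_mod_mod]
  have e1 : (fun i e => ∑ l ∈ S.map Fin.valEmbedding, (uu p z q l).g i e) =
      (fun i e => ∑ k ∈ S, (uv p ((fun k : Fin (q+1) => z k) k)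
        ((fun k : Fin (q+1) => z ((k+1 : Fin (q+1)) : ℕ)) k)).g i e) := by
    funext i e
    rw [Finset.sum_map]
    apply Finset.sum_congr rfl
    intro k _
    unfold uu
    rw [Fin.valEmbedding_apply, e3]
  rw [e1]
  unfold Phi
  rw [if_pos (InD_shg hs S _ _)]
  congr 1
  funext i j
  exact Cm_shg s S (fun k : Fin (q+1) => z k) (fun k : Fin (q+1) => z ((k+1 : Fin (q+1)) : ℕ)) i j

theorem Phi_mem {N : ℕ} : Phi p N ∈ MM p (N+1) := by
  intro q hq z
  funext s
  by_cases hs : InD s
  · rw [dls_Phi N q z hs]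
    exact P1 (fun i => prj_SZ _) (fun k i => ∑ e, (z k).g i e) (fun k => (z k).x) hq 0
  · exact dls_supp (P := fun s => ¬ InD s) (fun s k h h' => h ((mul_InD_iff s _ _).mp h'))
      (fun s h => by unfold Phi; rw [if_neg h]) _ hs

/-- special elements -/
def bs (N k : ℕ) : WT p (N+1) :=
  ⟨fun i e => (if (i : ℕ) = k then 1 else 0) * (if e = 0 then 1 else 0),
    fun i => if (i : ℕ) = k then 1 else 0⟩

/-- the top value -/
theorem top_value {N : ℕ} (hN : 1 ≤ N) :
    dls (uu p (fun k => bs N k) N) (N+1) (Phi p N) 1 ≠ 0 := by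
  have h1 : InD (1 : WT p (N+1)) := by
    refine ⟨rfl, ?_⟩
    unfold mom
    simp [WT.one_g]
  rw [dls_Phi N N _ h1]
  have h2 := P2 (p := p) hN
  convert h2 using 5 with S _
  rename_i i
  funext j
  have e0 : Cm (1 : WT p (N+1)) i j = 0 := by
    unfold Cm prj raw mom
    simp [WT.one_g]
  rw [e0]
  congr 1
  apply Finset.sum_congr rfl
  intro k _
  have e1 : ∀ k : Fin (N+1), (bs (p := p) N (k : ℕ)).x = Pi.single k 1 := by
    intro k
    funext j
    rw [Pi.single_apply]
    simp [bs, Fin.ext_iff]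
  have e2 : ∑ e, (bs (p := p) N (k : ℕ)).g i e = (Pi.single k 1 : Fin (N+1) → ZMod p) i := by
    unfold bs
    simp only []
    rw [← Finset.mul_sum, Finset.sum_ite_eq' Finset.univ, if_pos (Finset.mem_univ _), mul_one,
      Pi.single_apply]
    simp [Fin.ext_iff]
  rw [e1, e1, e2]

end phi

end Pool.Agent.Helper429.LF2
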